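import Mathlib

/-!
# Two embeddings of an algebraically closed field with a transcendental element

`L` is the algebraic closure of the field of rational functions in `t` over the algebraic numbers.
For every transcendental `p` there is an embedding of `L` into `ℂ` with `t ↦ p`, and all these
embeddings agree on the algebraic numbers. Solutions of polynomial equations over `L` exist if there
are complex ones.
-/

set_option autoImplicit false

namespace Pool.Agent.DRT

open Polynomial

/-- the algebraic numbers -/
abbrev QA : Type := algebraicClosure ℚ ℂ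

/-- the rational functions -/
abbrev FF : Type := FractionRing (Polynomial QA)

/-- its algebraic closure -/
abbrev LL : Type := AlgebraicClosure FF

/-- the variable -/
noncomputable def tt : LL := algebraMap FF LL (algebraMap (Polynomial QA) FF X)

/-- the constants -/
noncomputable def cst : QA →+* LL :=
  ((algebraMap FF LL).comp (algebraMap (Polynomial QA) FF)).comp (Polynomial.C)

/-- the fixed embedding of the algebraic numbers -/
noncomputable def ea : QA →+* ℂ := algebraMap QA ℂ

theorem eval_injective (p : ℂ) (hp : Transcendental ℚ p) :
    Function.Injective (Polynomial.eval₂RingHom ea p) := by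
  have h : Transcendental QA p := by
    intro h
    have i1 := algebraicClosure.isAlgebraic ℚ ℂ
    have i2 : Algebra.IsAlgebraic ℚ QA := by
      convert i1
      · rfl
      · exact Subsingleton.elim _ _
    exact hp (h.restrictScalars ℚ)
  have h2 := transcendental_iff_injective.1 h
  intro a b hab
  exact h2 hab

theorem exists_emb (p : ℂ) (hp : Transcendental ℚ p) :
    ∃ j : LL →+* ℂ, j tt = p ∧ ∀ c : QA, j (cst c) = ea c := by
  have hg := eval_injective p hp
  let g : FF →+* ℂ := IsFractionRing.lift hg
  let _ : Algebra FF ℂ := g.toAlgebra
  let j : LL →ₐ[FF] ℂ := IsAlgClosed.lift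
  refine ⟨j.toRingHom, ?_, fun c => ?_⟩
  · show j (algebraMap FF LL (algebraMap (Polynomial QA) FF X)) = p
    rw [j.commutes]
    show g (algebraMap (Polynomial QA) FF X) = p
    rw [IsFractionRing.lift_algebraMap]
    simp
  · show j (algebraMap FF LL (algebraMap (Polynomial QA) FF (C c))) = ea c
    rw [j.commutes]
    show g (algebraMap (Polynomial QA) FF (C c)) = ea c
    rw [IsFractionRing.lift_algebraMap]
    simp

/-- Solutions over an algebraically closed field exist if there are complex ones. -/
theorem exists_solution {K : Type} [Field K] [IsAlgClosed K] (j : K →+* ℂ) {σ : Type} [Finite σ]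
    (S : Set (MvPolynomial σ K)) (x : σ → ℂ) (hx : ∀ f ∈ S, MvPolynomial.eval₂ j x f = 0) :
    ∃ y : σ → K, ∀ f ∈ S, MvPolynomial.eval y f = 0 := by
  by_contra hne
  push Not at hne
  have h1 : MvPolynomial.zeroLocus K (Ideal.span S) = ∅ := by
    rw [Set.eq_empty_iff_forall_notMem]
    intro y hy
    obtain ⟨f, hf, hf2⟩ := hne y
    apply hf2
    have := (MvPolynomial.mem_zeroLocus_iff.1 hy) f (Ideal.subset_span hf)
    simpa using this
  have h2 := MvPolynomial.vanishingIdeal_zeroLocus_eq_radical (K := K) (Ideal.span S)
  rw [h1, MvPolynomial.vanishingIdeal_empty] at h2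
  have h3 : Ideal.span S = ⊤ := Ideal.radical_eq_top.1 h2.symm
  have h4 : ∀ f ∈ Ideal.span S, MvPolynomial.eval₂Hom j x f = 0 := by
    intro f hf
    have : Ideal.span S ≤ RingHom.ker (MvPolynomial.eval₂Hom j x) := by
      rw [Ideal.span_le]
      intro g hg
      exact hx g hg
    exact this hf
  have h5 := h4 1 (by rw [h3]; exact Submodule.mem_top)
  simp at h5

end Pool.Agent.DRT
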