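import Pool.Agent.DRT.Emb

set_option autoImplicit false

namespace Pool.Agent.DRT

open Matrix

/-- a rational matrix over a field of characteristic zero -/
def rc (K : Type) [Field K] {I : Type} (Q : Matrix I I ℚ) : Matrix I I K :=
  Q.map (fun x : ℚ => (x : K))

theorem rc_map {K K' : Type} [Field K] [Field K'] {I : Type}
    (j : K →+* K') (Q : Matrix I I ℚ) : (rc K Q).map j = rc K' Q := by
  ext i k
  simp [rc]

theorem sol {m : ℕ} (Q E : Matrix (Fin m) (Fin m) ℚ) (hE : E.det ≠ 0) (w v : ℤ)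
    (hw : w * m = v + v) (p0 p1 : ℂ) (h0 : p0 ≠ 0) (j0 j1 : LL →+* ℂ)
    (ht0 : j0 tt = p0) (ht1 : j1 tt = p1) (hc0 : ∀ c : QA, j0 (cst c) = ea c)
    (hc1 : ∀ c : QA, j1 (cst c) = ea c) (Φ : Matrix (Fin m) (Fin m) ℂ)
    (h : Φ * rc ℂ Q * Φ.transpose = p0 ^ w • rc ℂ E) :
    ∃ X : Matrix (Fin m) (Fin m) LL,
      X.map j0 * rc ℂ Q * (X.map j0).transpose = p0 ^ w • rc ℂ E ∧
      (X.map j0).det = Φ.det ∧
      X.map j1 * rc ℂ Q * (X.map j1).transpose = p1 ^ w • rc ℂ E ∧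
      (X.map j1).det * p0 ^ v = Φ.det * p1 ^ v := by
  classical
  have hdQ : (rc ℂ Q).det = ((Q.det : ℚ) : ℂ) := ((Rat.castHom ℂ).map_det Q).symm
  have hdE : (rc ℂ E).det = ((E.det : ℚ) : ℂ) := ((Rat.castHom ℂ).map_det E).symm
  have hp0v : p0 ^ v ≠ 0 := zpow_ne_zero _ h0
  have hEc : ((E.det : ℚ) : ℂ) ≠ 0 := by exact_mod_cast hE
  have hpw : (p0 ^ w) ^ m = (p0 ^ v) ^ 2 := by
    rw [← zpow_natCast, ← _root_.zpow_mul, hw, pow_two, ← zpow_add₀ h0]
  have hdet : Φ.det * Q.det * Φ.det = (p0 ^ v) ^ 2 * E.det := by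
    have h1 := congrArg Matrix.det h
    rw [Matrix.det_mul, Matrix.det_mul, Matrix.det_transpose, Matrix.det_smul, hdQ, hdE,
      Fintype.card_fin, hpw] at h1
    exact h1
  generalize hq : Q.det = q at *
  generalize he : E.det = e at *
  have hQc : (q : ℂ) ≠ 0 := by
    intro h2
    rw [h2, mul_zero, zero_mul] at hdet
    exact (mul_ne_zero (pow_ne_zero 2 hp0v) hEc) hdet.symm
  have hc2 : (Φ.det / p0 ^ v) ^ 2 = ((e / q : ℚ) : ℂ) := by
    rw [Rat.cast_div, div_pow, div_eq_div_iff (pow_ne_zero 2 hp0v) hQc]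
    linear_combination hdet
  have hca : IsAlgebraic ℚ (Φ.det / p0 ^ v) := by
    have h3 : IsAlgebraic ℚ ((Φ.det / p0 ^ v) ^ 2) := by
      rw [hc2]
      exact isAlgebraic_algebraMap (A := ℂ) (e / q : ℚ)
    exact IsAlgebraic.of_pow (by norm_num) h3
  obtain ⟨γ, hγ⟩ : ∃ γ : QA, ea γ = Φ.det / p0 ^ v :=
    ⟨⟨Φ.det / p0 ^ v, mem_algebraicClosure_iff.2 hca⟩, rfl⟩
  -- the system of equations
  let R := MvPolynomial (Fin m × Fin m) LL
  let Xg : Matrix (Fin m) (Fin m) R := Matrix.of fun i k => MvPolynomial.X (i, k)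
  let G : Matrix (Fin m) (Fin m) R :=
    Xg * (rc LL Q).map (MvPolynomial.C) * Xg.transpose -
      (tt ^ w • rc LL E).map (MvPolynomial.C)
  let fd : R := Xg.det - MvPolynomial.C (cst γ * tt ^ v)
  let S : Set R := {f | (∃ i k, f = G i k) ∨ f = fd}
  have hG : ∀ (A : Type) [Field A] (j : LL →+* A) (x : Fin m × Fin m → A)
      (Z : Matrix (Fin m) (Fin m) A),
      (∀ i k, Z i k = x (i, k)) →
      (G.map (MvPolynomial.eval₂Hom j x) = Z * rc A Q * Z.transpose - (j tt) ^ w • rc A E) ∧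
      MvPolynomial.eval₂Hom j x fd = Z.det - j (cst γ) * (j tt) ^ v := by
    intro A _ j x Z hZ
    have hX : Xg.map (MvPolynomial.eval₂Hom j x) = Z := by
      ext i k
      simp [Xg, hZ]
    have hC : ∀ B : Matrix (Fin m) (Fin m) LL,
        (B.map (MvPolynomial.C : LL →+* R)).map (MvPolynomial.eval₂Hom j x) = B.map j := by
      intro B
      ext i k
      simp
    constructor
    · show (Xg * (rc LL Q).map (MvPolynomial.C) * Xg.transpose -
        (tt ^ w • rc LL E).map (MvPolynomial.C)).map (MvPolynomial.eval₂Hom j x) = _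
      rw [Matrix.map_sub _ (fun a b => map_sub _ a b), Matrix.map_mul, Matrix.map_mul, hC, hC,
        Matrix.transpose_map, hX, rc_map]
      congr 1
      ext i k
      simp [rc]
    · show MvPolynomial.eval₂Hom j x (Xg.det - MvPolynomial.C (cst γ * tt ^ v)) = _
      rw [map_sub, RingHom.map_det, RingHom.mapMatrix_apply, hX]
      simp
  obtain ⟨y, hy⟩ := exists_solution j0 S (fun ik => Φ ik.1 ik.2) (by
    obtain ⟨h1, h2⟩ := hG ℂ j0 (fun ik => Φ ik.1 ik.2) Φ (fun i k => rfl)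
    rintro f (⟨i, k, rfl⟩ | rfl)
    · have := congrFun (congrFun h1 i) k
      rw [Matrix.map_apply] at this
      refine this.trans ?_
      show (Φ * rc ℂ Q * Φ.transpose - (j0 tt) ^ w • rc ℂ E) i k = 0
      rw [ht0, h, sub_self]
      rfl
    · refine h2.trans ?_
      rw [hc0, ht0, hγ, div_mul_cancel₀ _ hp0v, sub_self])
  obtain ⟨h1, h2⟩ := hG LL (RingHom.id LL) y (Matrix.of fun i k => y (i, k)) (fun i k => rfl)
  generalize hX : (Matrix.of fun i k => y (i, k) : Matrix (Fin m) (Fin m) LL) = X at h1 h2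
  have e1 : X * rc LL Q * X.transpose = tt ^ w • rc LL E := by
    rw [← sub_eq_zero]
    simp only [RingHom.id_apply] at h1
    rw [← h1]
    ext i k
    rw [Matrix.map_apply]
    exact hy _ (Or.inl ⟨i, k, rfl⟩)
  have e2 : X.det = cst γ * tt ^ v := by
    rw [← sub_eq_zero]
    simp only [RingHom.id_apply] at h2
    rw [← h2]
    exact hy _ (Or.inr rfl)
  have e3 : ∀ j : LL →+* ℂ, X.map j * rc ℂ Q * (X.map j).transpose = (j tt) ^ w • rc ℂ E ∧
      (X.map j).det = j (cst γ) * (j tt) ^ v := by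
    intro j
    constructor
    · have := congrArg (fun B : Matrix (Fin m) (Fin m) LL => B.map j) e1
      simp only [Matrix.map_mul, Matrix.transpose_map] at this
      rw [rc_map] at this
      rw [this]
      ext i k
      simp [rc]
    · have := congrArg j e2
      rw [RingHom.map_det, RingHom.mapMatrix_apply] at this
      rw [this]
      simp
  refine ⟨X, ?_, ?_, ?_, ?_⟩
  · rw [(e3 j0).1, ht0]
  · rw [(e3 j0).2, ht0, hc0, hγ, div_mul_cancel₀ _ hp0v]
  · rw [(e3 j1).1, ht1]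
  · rw [(e3 j1).2, ht1, hc1, hγ]
    field_simp

end Pool.Agent.DRT
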