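import Pool.Agent.DRT.Sol

/-!
# The torus in the de Rham-Betti group
-/

set_option autoImplicit false

namespace Pool.Agent.DRT

open Matrix

/-! ### Tensor constructions over any field -/

/-- the index set of `⨁ i, V ^ ⊗ (a i)` -/
abbrev TI (I : Type) {r : ℕ} (a : Fin r → ℕ) : Type := (i : Fin r) × (Fin (a i) → I)

/-- the matrix of `⨁ i, c i • M ^ ⊗ (a i)` -/
def tens {K : Type} [Field K] {I : Type} {r : ℕ} (a : Fin r → ℕ) (c : Fin r → K)
    (M : Matrix I I K) : Matrix (TI I a) (TI I a) K :=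
  Matrix.blockDiagonal' fun i => c i • Matrix.of fun f g => ∏ t, M (f t) (g t)

theorem tens_map {K K' : Type} [Field K] [Field K'] (j : K →+* K') {I : Type} {r : ℕ}
    (a : Fin r → ℕ) (c : Fin r → K) (M : Matrix I I K) :
    (tens a c M).map j = tens a (fun i => j (c i)) (M.map j) := by
  unfold tens
  rw [Matrix.blockDiagonal'_map _ _ (map_zero j)]
  congr 1
  funext i
  ext f g
  simp [map_prod]

theorem tens_mul {K : Type} [Field K] {I : Type} [Fintype I] [DecidableEq I] {r : ℕ}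
    (a : Fin r → ℕ) (c c' : Fin r → K) (M M' : Matrix I I K) :
    tens a c M * tens a c' M' = tens a (fun i => c i * c' i) (M * M') := by
  unfold tens
  rw [← Matrix.blockDiagonal'_mul]
  congr 1
  funext i
  ext f g
  rw [Matrix.smul_mul, Matrix.mul_smul, smul_smul, Matrix.smul_apply, Matrix.smul_apply]
  congr 1
  rw [Matrix.mul_apply, Matrix.of_apply]
  simp only [Matrix.of_apply, Matrix.mul_apply]
  rw [Finset.prod_univ_sum, Fintype.piFinset_univ]
  refine Finset.sum_congr rfl fun x _ => ?_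
  rw [Finset.prod_mul_distrib]

/-- the complex span of a rational subspace -/
def cplx {J : Type} (W : Submodule ℚ (J → ℚ)) : Submodule ℂ (J → ℂ) :=
  Submodule.span ℂ ((fun w : J → ℚ => fun j => (w j : ℂ)) '' (W : Set (J → ℚ)))

theorem mem_cplx_of_ann {J : Type} [Fintype J] [DecidableEq J] (W : Submodule ℚ (J → ℚ))
    (v : J → ℂ) (h : ∀ ψ : J → ℚ, (∀ w ∈ W, ∑ x, ψ x * w x = 0) → ∑ x, (ψ x : ℂ) * v x = 0) :
    v ∈ cplx W := by
  obtain ⟨f, hf⟩ := LinearMap.exists_leftInverse_of_injective W.subtype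
    (LinearMap.ker_eq_bot.2 W.injective_subtype)
  have hf' : ∀ w ∈ W, ((f w : W) : J → ℚ) = w := by
    intro w hw
    have := LinearMap.congr_fun hf ⟨w, hw⟩
    exact congrArg Subtype.val this
  let P : J → J → ℚ := fun x y => ((f (Pi.single y 1) : W) : J → ℚ) x
  have hP : ∀ (u : J → ℚ) (x : J), ((f u : W) : J → ℚ) x = ∑ y, P x y * u y := by
    intro u x
    have hu : u = ∑ y, u y • (Pi.single y (1 : ℚ) : J → ℚ) := by
      ext z
      simp [Finset.sum_apply, Pi.single_apply]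
    conv_lhs => rw [hu]
    rw [map_sum]
    simp only [map_smul]
    rw [Submodule.coe_sum, Finset.sum_apply]
    refine Finset.sum_congr rfl fun y _ => ?_
    simp [P, mul_comm]
  have h1 : ∀ x, v x = ∑ y, (P x y : ℂ) * v y := by
    intro x
    have h2 := h (fun y => (if x = y then 1 else 0) - P x y) (fun w hw => by
      simp only [sub_mul, ite_mul, one_mul, zero_mul, Finset.sum_sub_distrib]
      rw [← hP w x, hf' w hw]
      simp)
    have h3 : ∑ y, ((((if x = y then 1 else 0) - P x y : ℚ)) : ℂ) * v y =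
        v x - ∑ y, (P x y : ℂ) * v y := by
      have h5 : ∀ y, ((((if x = y then 1 else 0) - P x y : ℚ)) : ℂ) =
          (if x = y then 1 else 0) - (P x y : ℂ) := by
        intro y
        split_ifs <;> simp
      simp only [h5, sub_mul, ite_mul, one_mul, zero_mul, Finset.sum_sub_distrib,
        Finset.sum_ite_eq, Finset.mem_univ, if_true]
    rw [h3] at h2
    exact sub_eq_zero.1 h2
  have h4 : v = ∑ y, v y • (fun x => (((f (Pi.single y 1) : W) : J → ℚ) x : ℂ)) := by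
    ext x
    rw [h1 x, Finset.sum_apply]
    refine Finset.sum_congr rfl fun y _ => ?_
    simp [P, mul_comm]
  rw [h4]
  refine Submodule.sum_mem _ fun y _ => Submodule.smul_mem _ _ (Submodule.subset_span ?_)
  exact ⟨_, (f (Pi.single y 1)).2, rfl⟩

theorem ann_of_mem_cplx {J : Type} [Fintype J] (W : Submodule ℚ (J → ℚ))
    (v : J → ℂ) (hv : v ∈ cplx W) (ψ : J → ℚ) (hψ : ∀ w ∈ W, ∑ x, ψ x * w x = 0) :
    ∑ x, (ψ x : ℂ) * v x = 0 := by
  unfold cplx at hv
  induction hv using Submodule.span_induction with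
  | mem x hx =>
    obtain ⟨w, hw, rfl⟩ := hx
    have := hψ w hw
    show ∑ x, (ψ x : ℂ) * (w x : ℂ) = 0
    exact_mod_cast this
  | zero => simp
  | add x y _ _ hx hy =>
    simp only [Pi.add_apply, mul_add, Finset.sum_add_distrib]
    rw [hx, hy, add_zero]
  | smul c x _ hx =>
    simp only [Pi.smul_apply, smul_eq_mul]
    rw [← mul_zero c, ← hx, Finset.mul_sum]
    exact Finset.sum_congr rfl fun y _ => by ring

/-- Relations of a matrix over `L` between rational subspaces pass from one embedding to the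
other one. -/
theorem transfer {J : Type} [Fintype J] [DecidableEq J] {L : Type} [Field L] [CharZero L]
    (j0 j1 : L →+* ℂ) (T : Matrix J J L) (W W' : Submodule ℚ (J → ℚ))
    (h : (cplx W).map (T.map j0).mulVecLin ≤ cplx W') :
    (cplx W).map (T.map j1).mulVecLin ≤ cplx W' := by
  unfold cplx at h ⊢
  rw [Submodule.map_span, Submodule.span_le] at h ⊢
  rintro _ ⟨_, ⟨w, hw, rfl⟩, rfl⟩
  refine mem_cplx_of_ann W' _ fun ψ hψ => ?_
  have h1 := ann_of_mem_cplx W' _ (h ⟨_, ⟨w, hw, rfl⟩, rfl⟩) ψ hψ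
  have key : ∀ j : L →+* ℂ, ∑ x, (ψ x : ℂ) * ((T.map j).mulVecLin fun y => (w y : ℂ)) x =
      j (∑ x, (ψ x : L) * ∑ y, T x y * (w y : L)) := by
    intro j
    rw [map_sum]
    refine Finset.sum_congr rfl fun x _ => ?_
    rw [map_mul, map_ratCast, map_sum, Matrix.mulVecLin_apply, Matrix.mulVec, dotProduct]
    congr 1
    refine Finset.sum_congr rfl fun y _ => ?_
    rw [map_mul, map_ratCast, Matrix.map_apply]
  rw [key] at h1 ⊢
  rw [(map_eq_zero j0).1 h1, map_zero]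

/-! ### Block diagonal matrices -/

/-- the index set of a basis of `V_1 ⊕ ⋯ ⊕ V_n` -/
abbrev IX {n : ℕ} (m : Fin n → ℕ) : Type := Fin 0 ⊕ ((l : Fin n) × Fin (m l))

/-- the block diagonal matrix -/
def dg {K : Type} [Field K] {n : ℕ} {m : Fin n → ℕ} (Φ : ∀ l, Matrix (Fin (m l)) (Fin (m l)) K) :
    Matrix (IX m) (IX m) K :=
  Matrix.fromBlocks (1 : Matrix (Fin 0) (Fin 0) K) 0 0 (Matrix.blockDiagonal' Φ)

theorem dg_map {K K' : Type} [Field K] [Field K'] (j : K →+* K') {n : ℕ} {m : Fin n → ℕ}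
    (Φ : ∀ l, Matrix (Fin (m l)) (Fin (m l)) K) :
    (dg Φ).map j = dg fun l => (Φ l).map j := by
  unfold dg
  rw [Matrix.fromBlocks_map, Matrix.blockDiagonal'_map _ _ (map_zero j)]
  congr 1
  · ext i
    exact i.elim0
  · ext i
    exact i.elim0
  · ext i k
    exact k.elim0

theorem dg_mul {K : Type} [Field K] {n : ℕ} {m : Fin n → ℕ}
    (Φ Ψ : ∀ l, Matrix (Fin (m l)) (Fin (m l)) K) :
    dg Φ * dg Ψ = dg fun l => Φ l * Ψ l := by
  unfold dg
  rw [Matrix.fromBlocks_multiply]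
  simp [Matrix.blockDiagonal'_mul]

/-- the condition on `s`: multiplier `ν ^ w`, determinant `ν ^ v` -/
def Sim {n : ℕ} {m : Fin n → ℕ} (E : ∀ l, Matrix (Fin (m l)) (Fin (m l)) ℚ) (w v : Fin n → ℤ)
    (ν : ℂ) (s : ∀ l, Matrix (Fin (m l)) (Fin (m l)) ℂ) : Prop :=
  ∀ l, (s l).det = ν ^ v l ∧
    s l * rc ℂ (E l) * (s l).transpose = ν ^ w l • rc ℂ (E l)

/-- `W'` is stable under `s`, with the Tate twists `b` -/
def Stab {n : ℕ} {m : Fin n → ℕ} {r : ℕ} (a : Fin r → ℕ) (b : Fin r → ℤ)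
    (W' : Submodule ℚ (TI (IX m) a → ℚ)) (ν : ℂ)
    (s : ∀ l, Matrix (Fin (m l)) (Fin (m l)) ℂ) : Prop :=
  (cplx W').map (tens a (fun i => ν ^ b i) (dg s)).mulVecLin ≤ cplx W'

theorem Sim_mul {n : ℕ} {m : Fin n → ℕ} {E : ∀ l, Matrix (Fin (m l)) (Fin (m l)) ℚ}
    {w v : Fin n → ℤ} {ν ν' : ℂ} {s s' : ∀ l, Matrix (Fin (m l)) (Fin (m l)) ℂ}
    (h : Sim E w v ν s) (h' : Sim E w v ν' s') : Sim E w v (ν * ν') fun l => s l * s' l := by
  intro l
  obtain ⟨h1, h2⟩ := h l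
  obtain ⟨h3, h4⟩ := h' l
  refine ⟨by rw [Matrix.det_mul, h1, h3, mul_zpow], ?_⟩
  calc s l * s' l * rc ℂ (E l) * (s l * s' l).transpose =
      s l * (s' l * rc ℂ (E l) * (s' l).transpose) * (s l).transpose := by
        rw [Matrix.transpose_mul]
        simp only [Matrix.mul_assoc]
    _ = (ν * ν') ^ w l • rc ℂ (E l) := by
        rw [h4, Matrix.mul_smul, Matrix.smul_mul, h2, smul_smul, mul_zpow, mul_comm]

theorem Sim_inv {n : ℕ} {m : Fin n → ℕ} {E : ∀ l, Matrix (Fin (m l)) (Fin (m l)) ℚ}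
    {w v : Fin n → ℤ} {ν : ℂ} (hν : ν ≠ 0) {s : ∀ l, Matrix (Fin (m l)) (Fin (m l)) ℂ}
    (h : Sim E w v ν s) : Sim E w v ν⁻¹ (fun l => (s l)⁻¹) ∧ (∀ l, (s l)⁻¹ * s l = 1) ∧
      ∀ l, s l * (s l)⁻¹ = 1 := by
  have hu : ∀ l, IsUnit (s l).det := fun l => by
    rw [(h l).1]
    exact (zpow_ne_zero _ hν).isUnit
  refine ⟨fun l => ?_, fun l => Matrix.nonsing_inv_mul _ (hu l),
    fun l => Matrix.mul_nonsing_inv _ (hu l)⟩
  obtain ⟨h1, h2⟩ := h l
  refine ⟨by rw [Matrix.det_nonsing_inv, h1, Ring.inverse_eq_inv', _root_.inv_zpow], ?_⟩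
  have h3 : (s l)⁻¹ * (s l * rc ℂ (E l) * (s l).transpose) * (s l)⁻¹.transpose = rc ℂ (E l) := by
    calc (s l)⁻¹ * (s l * rc ℂ (E l) * (s l).transpose) * (s l)⁻¹.transpose =
        ((s l)⁻¹ * s l) * rc ℂ (E l) * ((s l)⁻¹ * s l).transpose := by
          rw [Matrix.transpose_mul]
          simp only [Matrix.mul_assoc]
      _ = rc ℂ (E l) := by
          rw [Matrix.nonsing_inv_mul _ (hu l), Matrix.transpose_one, one_mul, mul_one]
  rw [h2, Matrix.mul_smul, Matrix.smul_mul] at h3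
  rw [← smul_right_injective _ (zpow_ne_zero (w l) hν) |>.eq_iff, h3, smul_smul, _root_.inv_zpow,
    mul_inv_cancel₀ (zpow_ne_zero _ hν), one_smul]

theorem Stab_mul {n : ℕ} {m : Fin n → ℕ} {r : ℕ} {a : Fin r → ℕ} {b : Fin r → ℤ}
    {W' : Submodule ℚ (TI (IX m) a → ℚ)} {ν ν' : ℂ}
    {s s' : ∀ l, Matrix (Fin (m l)) (Fin (m l)) ℂ} (h : Stab a b W' ν s)
    (h' : Stab a b W' ν' s') : Stab a b W' (ν * ν') fun l => s l * s' l := by
  unfold Stab
  have e : tens a (fun i => (ν * ν') ^ b i) (dg fun l => s l * s' l) =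
      tens a (fun i => ν ^ b i) (dg s) * tens a (fun i => ν' ^ b i) (dg s') := by
    rw [tens_mul, dg_mul]
    congr 1
    funext i
    rw [mul_zpow]
  rw [e, Matrix.mulVecLin_mul, Submodule.map_comp]
  exact (Submodule.map_mono h').trans h

/-- The construction of an element with multiplier `ν`, if `ν * p` is transcendental. -/
theorem exists_sim {n : ℕ} {m : Fin n → ℕ} (Q E : ∀ l, Matrix (Fin (m l)) (Fin (m l)) ℚ)
    (hE : ∀ l, (E l).det ≠ 0) (w v : Fin n → ℤ) (hw : ∀ l, w l * m l = v l + v l) (p : ℂ)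
    (hp : Transcendental ℚ p) (Φ : ∀ l, Matrix (Fin (m l)) (Fin (m l)) ℂ)
    (hΦ : ∀ l, Φ l * rc ℂ (Q l) * (Φ l).transpose = p ^ w l • rc ℂ (E l))
    {r : ℕ} (a : Fin r → ℕ) (b : Fin r → ℤ) (W W' : Submodule ℚ (TI (IX m) a → ℚ))
    (hW : (cplx W).map (tens a (fun i => p ^ b i) (dg Φ)).mulVecLin = cplx W')
    (hS : ∀ s : ∀ l, Matrix (Fin (m l)) (Fin (m l)) ℂ, Sim E w v 1 s → Stab a b W' 1 s)
    (ν : ℂ) (hν : Transcendental ℚ (ν * p)) :
    ∃ u, Sim E w v ν u ∧ Stab a b W' ν u := by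
  have h0 : p ≠ 0 := fun h => hp (h ▸ isAlgebraic_zero)
  obtain ⟨j0, ht0, hc0⟩ := exists_emb p hp
  obtain ⟨j1, ht1, hc1⟩ := exists_emb (ν * p) hν
  have hν0 : ν ≠ 0 := fun h => hν (by rw [h, zero_mul]; exact isAlgebraic_zero)
  choose X hX1 hX2 hX3 hX4 using fun l => sol (Q l) (E l) (hE l) (w l) (v l) (hw l) p (ν * p) h0
    j0 j1 ht0 ht1 hc0 hc1 (Φ l) (hΦ l)
  have hdE : ∀ l, (rc ℂ (E l)).det ≠ 0 := fun l => by
    have : (rc ℂ (E l)).det = (((E l).det : ℚ) : ℂ) := ((Rat.castHom ℂ).map_det (E l)).symm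
    rw [this]
    exact_mod_cast hE l
  have hdΦ : ∀ l, IsUnit (Φ l).det := fun l => by
    rw [isUnit_iff_ne_zero]
    intro h
    have h1 := congrArg Matrix.det (hΦ l)
    rw [Matrix.det_mul, Matrix.det_mul, h, zero_mul, zero_mul, Matrix.det_smul] at h1
    exact mul_ne_zero (pow_ne_zero _ (zpow_ne_zero _ h0)) (hdE l) h1.symm
  have hi : ∀ l, (Φ l)⁻¹ * Φ l = 1 := fun l => Matrix.nonsing_inv_mul _ (hdΦ l)
  have hi' : ∀ l, Φ l * (Φ l)⁻¹ = 1 := fun l => Matrix.mul_nonsing_inv _ (hdΦ l)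
  -- general computation
  have gen : ∀ (l : Fin n) (Y : Matrix (Fin (m l)) (Fin (m l)) ℂ) (q : ℂ),
      Y * rc ℂ (Q l) * Y.transpose = q ^ w l • rc ℂ (E l) →
      (Y * (Φ l)⁻¹) * rc ℂ (E l) * (Y * (Φ l)⁻¹).transpose =
        (q * p⁻¹) ^ w l • rc ℂ (E l) := by
    intro l Y q hY
    have h1 : (Y * (Φ l)⁻¹) * (Φ l * rc ℂ (Q l) * (Φ l).transpose) *
        (Y * (Φ l)⁻¹).transpose = q ^ w l • rc ℂ (E l) := by
      rw [← hY]
      calc (Y * (Φ l)⁻¹) * (Φ l * rc ℂ (Q l) * (Φ l).transpose) *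
          (Y * (Φ l)⁻¹).transpose =
          Y * ((Φ l)⁻¹ * Φ l) * rc ℂ (Q l) * (Y * ((Φ l)⁻¹ * Φ l)).transpose := by
            simp only [Matrix.transpose_mul, Matrix.mul_assoc]
        _ = Y * rc ℂ (Q l) * Y.transpose := by rw [hi, mul_one]
    rw [hΦ l, Matrix.mul_smul, Matrix.smul_mul] at h1
    rw [← smul_right_injective _ (zpow_ne_zero (w l) h0) |>.eq_iff, h1, smul_smul]
    congr 1
    rw [mul_zpow, _root_.inv_zpow, mul_comm, mul_assoc,
      inv_mul_cancel₀ (zpow_ne_zero _ h0), mul_one]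
  have t1 : ∀ (q : ℂ) (Y : ∀ l, Matrix (Fin (m l)) (Fin (m l)) ℂ),
      tens a (fun i => (q * p) ^ b i) (dg Y) =
        tens a (fun i => q ^ b i) (dg fun l => Y l * (Φ l)⁻¹) *
          tens a (fun i => p ^ b i) (dg Φ) := by
    intro q Y
    rw [tens_mul, dg_mul]
    congr 1
    · funext i
      rw [mul_zpow]
    · congr 1
      funext l
      rw [Matrix.mul_assoc, hi, mul_one]
  have hs0 : Sim E w v 1 fun l => (X l).map j0 * (Φ l)⁻¹ := by
    intro l
    refine ⟨?_, ?_⟩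
    · rw [Matrix.det_mul, hX2 l, ← Matrix.det_mul, hi', Matrix.det_one, _root_.one_zpow]
    · rw [gen l _ _ (hX1 l), mul_inv_cancel₀ h0]
  have hst0 := hS _ hs0
  have m0 : (cplx W).map ((tens a (fun i => tt ^ b i) (dg X)).map j0).mulVecLin ≤ cplx W' := by
    rw [tens_map, dg_map]
    simp only [map_zpow₀, ht0]
    have e := t1 1 fun l => (X l).map j0
    simp only [one_mul] at e
    rw [e, Matrix.mulVecLin_mul, Submodule.map_comp, hW]
    exact hst0
  have m1 := transfer j0 j1 _ W W' m0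
  rw [tens_map, dg_map] at m1
  simp only [map_zpow₀, ht1] at m1
  rw [t1 ν fun l => (X l).map j1, Matrix.mulVecLin_mul, Submodule.map_comp, hW] at m1
  refine ⟨fun l => (X l).map j1 * (Φ l)⁻¹, fun l => ⟨?_, ?_⟩, m1⟩
  · have h4 := hX4 l
    rw [mul_zpow, ← mul_assoc] at h4
    have h5 := mul_right_cancel₀ (zpow_ne_zero (v l) h0) h4
    rw [Matrix.det_mul, h5, mul_comm ((Φ l).det), mul_assoc, ← Matrix.det_mul, hi',
      Matrix.det_one, mul_one]
  · rw [gen l _ _ (hX3 l), mul_assoc, mul_inv_cancel₀ h0, mul_one]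

/-- The torus: stability under the elements with multiplier `1` implies the stability under all
similitudes, with the same multiplier. -/
theorem torus {n : ℕ} {m : Fin n → ℕ} (Q E : ∀ l, Matrix (Fin (m l)) (Fin (m l)) ℚ)
    (hE : ∀ l, (E l).det ≠ 0) (w v : Fin n → ℤ) (hw : ∀ l, w l * m l = v l + v l) (p : ℂ)
    (hp : Transcendental ℚ p) (Φ : ∀ l, Matrix (Fin (m l)) (Fin (m l)) ℂ)
    (hΦ : ∀ l, Φ l * rc ℂ (Q l) * (Φ l).transpose = p ^ w l • rc ℂ (E l))
    {r : ℕ} (a : Fin r → ℕ) (b : Fin r → ℤ) (W W' : Submodule ℚ (TI (IX m) a → ℚ))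
    (hW : (cplx W).map (tens a (fun i => p ^ b i) (dg Φ)).mulVecLin = cplx W')
    (hS : ∀ s : ∀ l, Matrix (Fin (m l)) (Fin (m l)) ℂ, Sim E w v 1 s → Stab a b W' 1 s)
    (ν : ℂ) (hν : ν ≠ 0) (s : ∀ l, Matrix (Fin (m l)) (Fin (m l)) ℂ) (hs : Sim E w v ν s) :
    Stab a b W' ν s := by
  have h0 : p ≠ 0 := fun h => hp (h ▸ isAlgebraic_zero)
  -- division by an element with the same multiplier
  have div : ∀ (μ : ℂ) (u : ∀ l, Matrix (Fin (m l)) (Fin (m l)) ℂ), μ ≠ 0 → Sim E w v μ u →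
      Stab a b W' μ u → ∀ (ρ : ℂ) (s : ∀ l, Matrix (Fin (m l)) (Fin (m l)) ℂ),
      Sim E w v (ρ * μ) s → (∀ s', Sim E w v ρ s' → Stab a b W' ρ s') →
      Stab a b W' (ρ * μ) s := by
    intro μ u hμ hu hsu ρ s hs hρ
    obtain ⟨h1, h2, h3⟩ := Sim_inv hμ hu
    have h4 := Sim_mul hs h1
    rw [mul_assoc, mul_inv_cancel₀ hμ, mul_one] at h4
    have h5 := Stab_mul (hρ _ h4) hsu
    have e : (fun l => s l * (u l)⁻¹ * u l) = s := by
      funext l
      rw [Matrix.mul_assoc, h2, mul_one]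
    rwa [e] at h5
  have good : ∀ μ : ℂ, μ ≠ 0 → Transcendental ℚ (μ * p) →
      ∀ s, Sim E w v μ s → Stab a b W' μ s := by
    intro μ hμ hμp s hs
    obtain ⟨u, hu, hsu⟩ := exists_sim Q E hE w v hw p hp Φ hΦ a b W W' hW hS μ hμp
    have := div μ u hμ hu hsu 1 s (by rwa [one_mul]) hS
    rwa [one_mul] at this
  by_cases hνp : Transcendental ℚ (ν * p)
  · exact good ν hν hνp s hs
  · have hpp : Transcendental ℚ (p * p) := by
      have := hp.pow (n := 2) (by norm_num)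
      rwa [pow_two] at this
    obtain ⟨u, hu, hsu⟩ := exists_sim Q E hE w v hw p hp Φ hΦ a b W W' hW hS p hpp
    have hνt : Transcendental ℚ ν := by
      intro h
      apply hp
      have h6 : IsAlgebraic ℚ (ν * p) := not_not.1 hνp
      have h7 : p = ν⁻¹ * (ν * p) := by
        rw [← mul_assoc, inv_mul_cancel₀ hν, one_mul]
      rw [h7]
      exact (IsAlgebraic.inv h).mul h6
    have key := div p u h0 hu hsu (ν * p⁻¹) s
      (by rwa [mul_assoc, inv_mul_cancel₀ h0, mul_one])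
      (good (ν * p⁻¹) (mul_ne_zero hν (inv_ne_zero h0))
        (by rwa [mul_assoc, inv_mul_cancel₀ h0, mul_one]))
    rwa [mul_assoc, inv_mul_cancel₀ h0, mul_one] at key

theorem tens_one {K : Type} [Field K] {I : Type} [Fintype I] [DecidableEq I] {r : ℕ}
    (a : Fin r → ℕ) : tens a (fun _ => (1 : K)) (1 : Matrix I I K) = 1 := by
  unfold tens
  rw [← Matrix.blockDiagonal'_one]
  congr 1
  funext i
  ext f g
  rw [one_smul, Matrix.of_apply, Pi.one_apply, Matrix.one_apply]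
  by_cases h : f = g
  · rw [if_pos h, h]
    simp
  · rw [if_neg h]
    obtain ⟨t, ht⟩ := Function.ne_iff.1 h
    exact Finset.prod_eq_zero (Finset.mem_univ t) (Matrix.one_apply_ne ht)

theorem dg_one {K : Type} [Field K] {n : ℕ} {m : Fin n → ℕ} :
    dg (K := K) (fun l => (1 : Matrix (Fin (m l)) (Fin (m l)) K)) = 1 := by
  unfold dg
  have : (fun l => (1 : Matrix (Fin (m l)) (Fin (m l)) K)) = 1 := rfl
  rw [this, Matrix.blockDiagonal'_one, Matrix.fromBlocks_one]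

theorem stab_eq {n : ℕ} {m : Fin n → ℕ} {E : ∀ l, Matrix (Fin (m l)) (Fin (m l)) ℚ}
    {w v : Fin n → ℤ} {r : ℕ} {a : Fin r → ℕ} {b : Fin r → ℤ}
    {W' : Submodule ℚ (TI (IX m) a → ℚ)}
    (h : ∀ ν : ℂ, ν ≠ 0 → ∀ s, Sim E w v ν s → Stab a b W' ν s) (ν : ℂ) (hν : ν ≠ 0)
    (s : ∀ l, Matrix (Fin (m l)) (Fin (m l)) ℂ) (hs : Sim E w v ν s) :
    (cplx W').map (tens a (fun i => ν ^ b i) (dg s)).mulVecLin = cplx W' := by
  refine le_antisymm (h ν hν s hs) ?_
  obtain ⟨h1, -, h3⟩ := Sim_inv hν hs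
  have h4 := h ν⁻¹ (inv_ne_zero hν) _ h1
  unfold Stab at h4
  have e : tens a (fun i => ν ^ b i) (dg s) *
      tens a (fun i => ν⁻¹ ^ b i) (dg fun l => (s l)⁻¹) = 1 := by
    rw [tens_mul, dg_mul]
    simp only [h3]
    rw [dg_one, ← tens_one a]
    congr 1
    funext i
    rw [← mul_zpow, mul_inv_cancel₀ hν, _root_.one_zpow]
  calc cplx W' = (cplx W').map (tens a (fun i => ν ^ b i) (dg s) *
        tens a (fun i => ν⁻¹ ^ b i) (dg fun l => (s l)⁻¹)).mulVecLin := by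
        rw [e, Matrix.mulVecLin_one, Submodule.map_id]
    _ ≤ _ := by
        rw [Matrix.mulVecLin_mul, Submodule.map_comp]
        exact Submodule.map_mono h4

end Pool.Agent.DRT
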